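import Pool.Agent.W361.LQ.Stm

set_option autoImplicit false

namespace Pool.Agent.W654.LQ.Dense

open BoundedContinuousFunction Pool.Agent.W361.LQ

lemma M_pos (n : ℕ) : (0 : ℝ) < (M n : ℝ) := by
  have : 0 < M n := by unfold M; positivity
  exact_mod_cast this

lemma coe_nat_zero (j : ℕ) : ((j : ℝ) : UnitAddCircle) = 0 := by
  rw [AddCircle.coe_eq_zero_iff]
  exact ⟨j, by simp⟩

lemma smul_angle (n j : ℕ) (x : ℝ) :
    M n • (((x + j) / M n : ℝ) : UnitAddCircle) = (x : UnitAddCircle) := by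
  rw [← AddCircle.coe_nsmul, nsmul_eq_mul, mul_div_cancel₀ _ (M_pos n).ne', AddCircle.coe_add,
    coe_nat_zero, add_zero]

lemma getD_map_range (N : ℕ) (f : ℕ → ℕ × ℕ) (n : ℕ) :
    (((List.range N).map f).getD n (0, 0)) = if n < N then f n else (0, 0) := by
  rw [List.getD_eq_getElem?_getD, List.getElem?_map]
  split_ifs with h
  · rw [List.getElem?_range h]
    rfl
  · rw [List.getElem?_eq_none (by simpa using h)]
    rfl

lemma getD_nm (T : ℕ → ℕ → Bool) (s : ℕ) (L : List (ℕ × ℕ)) (n : ℕ) :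
    ((nm T s L).getD n (0, 0)) =
      if n < L.length then ((L.getD n (0, 0)).1, if fl T n s then (L.getD n (0, 0)).2 else 0)
      else (0, 0) := by
  unfold nm
  rw [getD_map_range]

lemma fl_true (T : ℕ → ℕ → Bool) (n s : ℕ) : fl T n s = true ↔ ∃ y < s, T n y = true := by
  unfold fl
  rw [List.any_eq_true]
  simp only [List.mem_range]

lemma mem_K (S : Set ℕ) (T : ℕ → ℕ → Bool) (hT : ∀ n, n ∉ S ↔ ∃ y, T n y = true) (k : ℕ) :
    pm (Pool.Agent.W361.LQ.sq T k) ∈ K S := by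
  intro n
  refine ⟨smul_angle n _ _, fun hn => ?_⟩
  have hf : fl T n (raw k).2.2.1 = false := by
    by_contra h
    rw [Bool.not_eq_false, fl_true] at h
    obtain ⟨y, _, hy⟩ := h
    exact (hT n).mpr ⟨y, hy⟩ hn
  have h0 : ((Pool.Agent.W361.LQ.sq T k).2.2.getD n (0, 0)).2 = 0 := by
    unfold Pool.Agent.W361.LQ.sq
    simp only
    rw [getD_nm, hf]
    split_ifs <;> simp_all
  apply Subtype.ext
  show ((rho (Pool.Agent.W361.LQ.sq T k) n : ℕ) : ℝ) / 2 ^ (Pool.Agent.W361.LQ.sq T k).2.1 = 1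
  unfold rho
  rw [h0, Nat.zero_min, Nat.sub_zero]
  push_cast
  exact div_self (by positivity)

lemma dist_co (r r' : ℝ) (w w' : UnitAddCircle) (hr' : 0 ≤ r') (hr'1 : r' ≤ 1) :
    dist (co r w) (co r' w') ≤ |r - r'| + ‖w - w'‖ := by
  have key : ∀ u u' : UnitAddCircle, |r * ‖u‖ - r' * ‖u'‖| ≤ |r - r'| + ‖u - u'‖ := by
    intro u u'
    have h1 : r * ‖u‖ - r' * ‖u'‖ = (r - r') * ‖u‖ + r' * (‖u‖ - ‖u'‖) := by ring
    rw [h1]
    have h2 := norm_circle_le u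
    have h3 := norm_nonneg u
    have h4 := abs_norm_sub_norm_le u u'
    calc |(r - r') * ‖u‖ + r' * (‖u‖ - ‖u'‖)| ≤ |(r - r') * ‖u‖| + |r' * (‖u‖ - ‖u'‖)| :=
          abs_add_le _ _
      _ = |r - r'| * ‖u‖ + r' * |‖u‖ - ‖u'‖| := by
          rw [abs_mul, abs_mul, abs_of_nonneg h3, abs_of_nonneg hr']
      _ ≤ |r - r'| * 1 + 1 * ‖u - u'‖ := by
          refine add_le_add (mul_le_mul_of_nonneg_left (by linarith) (abs_nonneg _)) ?_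
          exact mul_le_mul hr'1 h4 (abs_nonneg _) zero_le_one
      _ = |r - r'| + ‖u - u'‖ := by ring
  have k1 := key w w'
  have k2 := key (w + ((1 / 4 : ℝ) : UnitAddCircle)) (w' + ((1 / 4 : ℝ) : UnitAddCircle))
  rw [add_sub_add_right_eq_sub] at k2
  unfold co
  rw [Prod.dist_eq, Prod.dist_eq, Real.dist_eq, Real.dist_eq, Real.dist_eq]
  simp only [max_le_iff]
  refine ⟨?_, k1, k2⟩
  have := norm_nonneg (w - w')
  linarith

lemma rep_exists (u : UnitAddCircle) : ∃ t : ℝ, 0 ≤ t ∧ t < 1 ∧ (t : UnitAddCircle) = u := by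
  obtain ⟨x, hx, _⟩ := lift u
  refine ⟨Int.fract x, Int.fract_nonneg x, Int.fract_lt_one x, ?_⟩
  rw [← hx, ← Int.self_sub_floor, AddCircle.coe_sub]
  have : ((⌊x⌋ : ℝ) : UnitAddCircle) = 0 := by
    rw [AddCircle.coe_eq_zero_iff]
    exact ⟨⌊x⌋, by simp⟩
  rw [this, sub_zero]

lemma angle (n : ℕ) (t : ℝ) (ht1 : t < 1) (w : UnitAddCircle)
    (h : M n • w = (t : UnitAddCircle)) : ∃ j : ℕ, w = (((t + j) / M n : ℝ) : UnitAddCircle) := by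
  obtain ⟨v, hv0, hv1, rfl⟩ := rep_exists w
  have h2 : ((M n * v - t : ℝ) : UnitAddCircle) = 0 := by
    rw [AddCircle.coe_sub, ← h, ← AddCircle.coe_nsmul, nsmul_eq_mul, sub_self]
  rw [AddCircle.coe_eq_zero_iff] at h2
  obtain ⟨z, hz⟩ := h2
  have hz' : (z : ℝ) = M n * v - t := by simpa using hz
  have hzpos : (-1 : ℝ) < z := by
    rw [hz']
    have : 0 ≤ (M n : ℝ) * v := mul_nonneg (M_pos n).le hv0
    linarith
  have hz0 : 0 ≤ z := by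
    have : (-1 : ℤ) < z := by exact_mod_cast hzpos
    omega
  refine ⟨z.toNat, ?_⟩
  have e1 : ((z.toNat : ℕ) : ℝ) = (z : ℝ) := by
    have : ((z.toNat : ℕ) : ℤ) = z := Int.toNat_of_nonneg hz0
    exact_mod_cast congrArg (fun x : ℤ => (x : ℝ)) this
  congr 1
  rw [e1, hz', eq_div_iff (M_pos n).ne']
  ring

lemma floor_approx (x : ℝ) (hx : 0 ≤ x) (l : ℕ) :
    |x - (⌊x * 2 ^ l⌋₊ : ℝ) / 2 ^ l| ≤ (1 / 2 : ℝ) ^ l := by
  have h2 : (0 : ℝ) < 2 ^ l := by positivity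
  have h3 := Nat.floor_le (mul_nonneg hx h2.le)
  have h4 := Nat.lt_floor_add_one (x * 2 ^ l)
  have e : x - (⌊x * 2 ^ l⌋₊ : ℝ) / 2 ^ l = (x * 2 ^ l - ⌊x * 2 ^ l⌋₊) / 2 ^ l := by
    field_simp
  rw [e, abs_div, abs_of_pos h2, one_div, inv_pow, ← one_div]
  rw [div_le_div_iff_of_pos_right h2, abs_le]
  constructor <;> linarith

lemma rho_le (r : ℝ) (h0 : 0 ≤ r) (l : ℕ) : ⌊(1 - r) * 2 ^ l⌋₊ ≤ 2 ^ l := by
  have h1 : (1 - r) * 2 ^ l ≤ ((2 ^ l : ℕ) : ℝ) := by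
    push_cast
    have h3 : (0 : ℝ) < 2 ^ l := by positivity
    nlinarith
  exact Nat.floor_le_of_le h1

lemma mid_r (a : Pm) (n : ℕ) (c : Cd)
    (hg2 : (c.2.2.getD n (0, 0)).2 = ⌊(1 - (a.2.1 n : ℝ)) * 2 ^ c.2.1⌋₊) :
    |(a.2.1 n : ℝ) - ((pm c).2.1 n : ℝ)| ≤ (1 / 2 : ℝ) ^ c.2.1 := by
  have hle := rho_le (a.2.1 n : ℝ) (a.2.1 n).2.1 c.2.1
  have f1 : ((pm c).2.1 n : ℝ) = 1 - (⌊(1 - (a.2.1 n : ℝ)) * 2 ^ c.2.1⌋₊ : ℝ) / 2 ^ c.2.1 := by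
    show ((rho c n : ℕ) : ℝ) / 2 ^ c.2.1 = _
    unfold rho
    rw [hg2, min_eq_left hle, Nat.cast_sub hle]
    push_cast
    rw [sub_div, div_self (by positivity)]
  rw [f1]
  have h1 := floor_approx (1 - (a.2.1 n : ℝ)) (by linarith [(a.2.1 n).2.2]) c.2.1
  rw [abs_sub_comm] at h1
  refine le_trans (le_of_eq ?_) h1
  congr 1
  ring

lemma mid_w (a : Pm) (n : ℕ) (c : Cd) (t : ℝ) (j : ℕ)
    (hj : a.2.2 n = (((t + j) / M n : ℝ) : UnitAddCircle))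
    (hA : |t - (c.1 : ℝ) / 2 ^ c.2.1| ≤ (1 / 2 : ℝ) ^ c.2.1)
    (hg1 : (c.2.2.getD n (0, 0)).1 = j) :
    ‖a.2.2 n - (pm c).2.2 n‖ ≤ (1 / 2 : ℝ) ^ c.2.1 := by
  have f2 : (pm c).2.2 n =
      ((((c.1 : ℝ) / 2 ^ c.2.1 + j) / M n : ℝ) : UnitAddCircle) := by
    show ((((c.1 : ℝ) / 2 ^ c.2.1 + jj c n) / M n : ℝ) : UnitAddCircle) = _
    unfold jj
    rw [hg1]
  rw [f2, hj, ← AddCircle.coe_sub]
  refine (norm_coe_le _).trans ?_
  have h2 : (t + j) / M n - ((c.1 : ℝ) / 2 ^ c.2.1 + j) / M n =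
      (t - (c.1 : ℝ) / 2 ^ c.2.1) / M n := by ring
  rw [h2, abs_div, abs_of_pos (M_pos n)]
  refine (div_le_self (abs_nonneg _) ?_).trans hA
  have : 1 ≤ M n := by unfold M; exact Nat.le_add_left 1 _
  exact_mod_cast this

lemma mid (a : Pm) (n : ℕ) (c : Cd) (t : ℝ) (j : ℕ)
    (hj : a.2.2 n = (((t + j) / M n : ℝ) : UnitAddCircle))
    (hA : |t - (c.1 : ℝ) / 2 ^ c.2.1| ≤ (1 / 2 : ℝ) ^ c.2.1)
    (hg1 : (c.2.2.getD n (0, 0)).1 = j)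
    (hg2 : (c.2.2.getD n (0, 0)).2 = ⌊(1 - (a.2.1 n : ℝ)) * 2 ^ c.2.1⌋₊) :
    dist (crd a (n + 1)) (crd (pm c) (n + 1)) ≤ 2 * (1 / 2 : ℝ) ^ c.2.1 := by
  have e1 : ‖(1 / 2 : ℝ) ^ (n + 1)‖ ≤ 1 := by
    rw [norm_pow]
    refine pow_le_one₀ (norm_nonneg _) ?_
    norm_num
  have e2 := dist_co (a.2.1 n : ℝ) ((pm c).2.1 n : ℝ) (a.2.2 n) ((pm c).2.2 n)
    ((pm c).2.1 n).2.1 ((pm c).2.1 n).2.2
  have g1 := mid_r a n c hg2
  have g2 := mid_w a n c t j hj hA hg1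
  have e3 : dist (crd a (n + 1)) (crd (pm c) (n + 1)) = ‖(1 / 2 : ℝ) ^ (n + 1)‖ *
      dist (co (a.2.1 n : ℝ) (a.2.2 n)) (co ((pm c).2.1 n : ℝ) ((pm c).2.2 n)) := by
    rw [← dist_smul₀]
    rfl
  rw [e3]
  have e4 := mul_le_mul_of_nonneg_right e1 (dist_nonneg
    (x := co (a.2.1 n : ℝ) (a.2.2 n)) (y := co ((pm c).2.1 n : ℝ) ((pm c).2.2 n)))
  rw [one_mul] at e4
  linarith

lemma first (a : Pm) (c : Cd) (t : ℝ) (ht : (t : UnitAddCircle) = a.1)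
    (hA : |t - (c.1 : ℝ) / 2 ^ c.2.1| ≤ (1 / 2 : ℝ) ^ c.2.1) :
    dist (crd a 0) (crd (pm c) 0) ≤ (1 / 2 : ℝ) ^ c.2.1 := by
  have e3 : dist (crd a 0) (crd (pm c) 0) = dist (co 1 a.1) (co 1 (pm c).1) := rfl
  rw [e3]
  refine (dist_co 1 1 _ _ zero_le_one le_rfl).trans ?_
  rw [sub_self, abs_zero, zero_add, ← ht]
  have : (pm c).1 = (((c.1 : ℝ) / 2 ^ c.2.1 : ℝ) : UnitAddCircle) := rfl
  rw [this, ← AddCircle.coe_sub]
  exact (norm_coe_le _).trans hA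

/-- the estimate of the distance -/
lemma dist_est (a : Pm) (c : Cd) (t : ℝ) (N : ℕ) (ε : ℝ) (j : ℕ → ℕ)
    (hN : (1 / 2 : ℝ) ^ N < ε / 4) (hl : (1 / 2 : ℝ) ^ c.2.1 < ε / 4)
    (ht : (t : UnitAddCircle) = a.1)
    (hj : ∀ n, a.2.2 n = (((t + j n) / M n : ℝ) : UnitAddCircle))
    (hA : |t - (c.1 : ℝ) / 2 ^ c.2.1| ≤ (1 / 2 : ℝ) ^ c.2.1)
    (hg : ∀ n < N, c.2.2.getD n (0, 0) = (j n, ⌊(1 - (a.2.1 n : ℝ)) * 2 ^ c.2.1⌋₊)) :
    dist (Phi a) (Phi (pm c)) ≤ ε / 2 := by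
  have hpos : (0 : ℝ) < (1 / 2 : ℝ) ^ N := by positivity
  have hpos' : (0 : ℝ) < (1 / 2 : ℝ) ^ c.2.1 := by positivity
  rw [BoundedContinuousFunction.dist_le (by linarith)]
  intro i
  rw [Phi_apply, Phi_apply]
  rcases Nat.eq_zero_or_pos i with hi | hi
  · subst hi
    have := first a c t ht hA
    linarith
  · by_cases hiN : i ≤ N
    · obtain ⟨n, rfl⟩ : ∃ n, i = n + 1 := ⟨i - 1, by omega⟩
      have hnN : n < N := by omega
      have := mid a n c t (j n) (hj n) hA (by rw [hg n hnN]) (by rw [hg n hnN])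
      linarith
    · have h1 := norm_crd_le' a i
      have h2 := norm_crd_le' (pm c) i
      have h3 : (1 / 2 : ℝ) ^ i ≤ (1 / 2 : ℝ) ^ N :=
        pow_le_pow_of_le_one (by norm_num) (by norm_num) (by omega)
      have h4 := dist_le_norm_add_norm (crd a i) (crd (pm c) i)
      linarith

theorem main0 (S : Set ℕ) (T : ℕ → ℕ → Bool) (hT : ∀ n, n ∉ S ↔ ∃ y, T n y = true) :
    ∀ a ∈ K S, ∀ ε : ℝ, 0 < ε →
      ∃ k, dist (Phi a) (Phi (pm (Pool.Agent.W361.LQ.sq T k))) < ε := by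
  intro a ha ε hε
  obtain ⟨N, hN⟩ := exists_pow_lt_of_lt_one (show (0 : ℝ) < ε / 4 by linarith)
    (show (1 / 2 : ℝ) < 1 by norm_num)
  obtain ⟨l, hl⟩ := exists_pow_lt_of_lt_one (show (0 : ℝ) < ε / 4 by linarith)
    (show (1 / 2 : ℝ) < 1 by norm_num)
  obtain ⟨t, ht0, ht1, ht⟩ := rep_exists a.1
  have hang : ∀ n, ∃ j : ℕ, a.2.2 n = (((t + j) / M n : ℝ) : UnitAddCircle) := by
    intro n
    apply angle n t ht1
    rw [(ha n).1, ht]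
  choose j hj using hang
  have hex : ∀ n, ∃ y, n ∉ S → T n y = true := by
    intro n
    by_cases h : n ∈ S
    · exact ⟨0, fun h' => absurd h h'⟩
    · obtain ⟨y, hy⟩ := (hT n).mp h
      exact ⟨y, fun _ => hy⟩
  choose y hy using hex
  obtain ⟨s, hs⟩ : ∃ s, ∀ n < N, y n < s := by
    refine ⟨(Finset.range N).sup (fun n => y n + 1), fun n hn => ?_⟩
    have : y n + 1 ≤ (Finset.range N).sup (fun n => y n + 1) :=
      Finset.le_sup (f := fun n => y n + 1) (Finset.mem_range.mpr hn)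
    omega
  obtain ⟨L, hLlen, hL⟩ : ∃ L : List (ℕ × ℕ), L.length = N ∧ ∀ n < N, L.getD n (0, 0) =
      (j n, ⌊(1 - (a.2.1 n : ℝ)) * 2 ^ l⌋₊) := by
    refine ⟨(List.range N).map (fun n => (j n, ⌊(1 - (a.2.1 n : ℝ)) * 2 ^ l⌋₊)), by simp,
      fun n hn => ?_⟩
    rw [getD_map_range, if_pos hn]
  obtain ⟨k, hraw⟩ : ∃ k, raw k = (⌊t * 2 ^ l⌋₊, l, s, L) := by
    refine ⟨Encodable.encode ((⌊t * 2 ^ l⌋₊, l, s, L) : ℕ × ℕ × ℕ × List (ℕ × ℕ)), ?_⟩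
    unfold raw
    rw [Encodable.encodek]
    rfl
  have hsq : Pool.Agent.W361.LQ.sq T k = (⌊t * 2 ^ l⌋₊, l, nm T s L) := by
    unfold Pool.Agent.W361.LQ.sq
    rw [hraw]
  have hgetD : ∀ n < N, (nm T s L).getD n (0, 0) =
      (j n, ⌊(1 - (a.2.1 n : ℝ)) * 2 ^ l⌋₊) := by
    intro n hn
    rw [getD_nm, hLlen, if_pos hn, hL n hn]
    by_cases hnS : n ∈ S
    · have e2 : ⌊(1 - (a.2.1 n : ℝ)) * 2 ^ l⌋₊ = 0 := by
        rw [(ha n).2 hnS]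
        simp
      simp [e2]
    · have e2 : fl T n s = true := by
        rw [fl_true]
        exact ⟨y n, hs n hn, hy n hnS⟩
      simp [e2]
  refine ⟨k, ?_⟩
  rw [hsq]
  have := dist_est a (⌊t * 2 ^ l⌋₊, l, nm T s L) t N ε j hN hl ht hj (floor_approx t ht0 l) hgetD
  linarith

theorem main : S_DENSE := by
  intro S T hT
  exact ⟨mem_K S T hT, main0 S T hT⟩

end Pool.Agent.W654.LQ.Dense
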